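import Pool.Agent.Helper50.Frac.Adapt

/-!
# Adapted Bernoulli processes with multipliers

Items `i : ι` have a time `t i : ℕ`; `q i ω` is the probability that the item `i` is on.  The law
with the multiplier `m` has the probabilities `m i ω * q i ω`.
-/

open Finset

namespace Helper50.FracR

open Helper50.Frac (Sys Loc sum_le_one marg)

variable {ι : Type*} [DecidableEq ι]

/-- one-step weight of the law with the multiplier `m` -/
noncomputable def tf (q m : ι → Finset ι → ℝ) (i : ι) (ω : Finset ι) : ℝ :=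
  if i ∈ ω then m i ω * q i ω else 1 - m i ω * q i ω

/-- weight of the outcome `ω` -/
noncomputable def TW (q m : ι → Finset ι → ℝ) (U : Finset ι) (ω : Finset ι) : ℝ :=
  ∏ i ∈ U, tf q m i ω

/-- density ratio of one item -/
noncomputable def rat (q m : ι → Finset ι → ℝ) (i : ι) (ω : Finset ι) : ℝ :=
  if i ∈ ω then m i ω else (1 - m i ω * q i ω) / (1 - q i ω)

/-- normalising factor of two multipliers -/
noncomputable def nrm (q m m' : ι → Finset ι → ℝ) (i : ι) (ω : Finset ι) : ℝ :=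
  1 + (m i ω - 1) * (m' i ω - 1) * (q i ω / (1 - q i ω))

section

variable {t : ι → ℕ} {q m m' : ι → Finset ι → ℝ} (hq : Loc t q) (hm : Loc t m) (hm' : Loc t m')
  (q0 : ∀ i ω, 0 ≤ q i ω) (q1 : ∀ i ω, q i ω ≤ 1 / 4)
  (m0 : ∀ i ω, 0 ≤ m i ω) (m1 : ∀ i ω, m i ω ≤ 2)
  (m0' : ∀ i ω, 0 ≤ m' i ω) (m1' : ∀ i ω, m' i ω ≤ 2)

omit [DecidableEq ι] in
include q0 q1 m0 m1 in
theorem mq_le (i : ι) (ω : Finset ι) : 0 ≤ m i ω * q i ω ∧ m i ω * q i ω ≤ 1 / 2 := by
  have h1 := q0 i ω
  have h2 := q1 i ω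
  have h3 := m0 i ω
  have h4 := m1 i ω
  exact ⟨mul_nonneg h3 h1, by nlinarith⟩

include hq hm q0 q1 m0 m1 in
theorem tf_sys : Sys t (tf q m) where
  nonneg i ω := by
    have := mq_le q0 q1 m0 m1 i ω
    unfold tf
    split_ifs <;> linarith [this.1, this.2]
  loc i a ω hia hta := by
    unfold tf
    have : (i ∈ insert a ω) = (i ∈ ω) := by simp [hia]
    simp only [this, hq i a ω hta, hm i a ω hta]

include hq hm in
theorem tf_sum (i : ι) (ω : Finset ι) (hi : i ∉ ω) : tf q m i ω + tf q m i (insert i ω) = 1 := by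
  unfold tf
  have h1 := hq i i ω le_rfl
  have h2 := hm i i ω le_rfl
  simp [hi, h1, h2]

include hq hm q0 q1 m0 m1 in
theorem TW_nonneg (U ω : Finset ι) : 0 ≤ TW q m U ω :=
  Finset.prod_nonneg fun i _ => (tf_sys hq hm q0 q1 m0 m1).nonneg i ω

include hq hm q0 q1 m0 m1 in
theorem TW_sum (U : Finset ι) : ∑ ω ∈ U.powerset, TW q m U ω = 1 := by
  have := marg (tf_sys hq hm q0 q1 m0 m1) 0 (fun _ => 1) (fun _ _ _ => rfl) U
    (fun i _ _ ω hi => tf_sum hq hm i ω hi)
  simpa [TW] using this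

omit [DecidableEq ι] in
include q0 q1 m0 m1 m0' m1' in
theorem nrm_pos (i : ι) (ω : Finset ι) : 0 < nrm q m m' i ω := by
  have h1 := q0 i ω
  have h2 := q1 i ω
  have h3 : 0 < 1 - q i ω := by linarith
  have h4 : q i ω / (1 - q i ω) ≤ 1 / 3 := by
    rw [div_le_iff₀ h3]; linarith
  have h5 : 0 ≤ q i ω / (1 - q i ω) := div_nonneg h1 h3.le
  have h6 : -1 ≤ (m i ω - 1) * (m' i ω - 1) := by
    nlinarith [m0 i ω, m1 i ω, m0' i ω, m1' i ω, mul_nonneg (m0 i ω) (m0' i ω),
      mul_nonneg (m0 i ω) (sub_nonneg.2 (m1' i ω)), mul_nonneg (m0' i ω) (sub_nonneg.2 (m1 i ω)),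
      mul_nonneg (sub_nonneg.2 (m1 i ω)) (sub_nonneg.2 (m1' i ω))]
  unfold nrm
  nlinarith

include hq hm hm' q0 q1 m0 m1 m0' m1' in
/-- the pair identity: the expectation, in the law with the multiplier `m`, of the normalised
density of the law with the multiplier `m'` is at most `1` -/
theorem TW_pair (U U' : Finset ι) (hU : U' ⊆ U) :
    ∑ ω ∈ U.powerset, TW q m U ω *
      ((∏ i ∈ U', rat q m' i ω) / ∏ i ∈ U', nrm q m' m i ω) ≤ 1 := by
  classical
  let φ : ι → Finset ι → ℝ := fun i ω =>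
    tf q m i ω * (if i ∈ U' then rat q m' i ω / nrm q m' m i ω else 1)
  have hφ : Sys t φ := by
    refine ⟨fun i ω => ?_, fun i a ω hia hta => ?_⟩
    · refine mul_nonneg ((tf_sys hq hm q0 q1 m0 m1).nonneg i ω) ?_
      split_ifs
      · refine div_nonneg ?_ (nrm_pos q0 q1 m0' m1' m0 m1 i ω).le
        unfold rat
        have h1 := mq_le q0 q1 m0' m1' i ω
        have h2 := q1 i ω
        split_ifs
        · exact m0' i ω
        · exact div_nonneg (by linarith [h1.2]) (by linarith)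
      · norm_num
    · have e1 : (i ∈ insert a ω) = (i ∈ ω) := by simp [hia]
      simp only [φ, tf, rat, nrm, e1, hq i a ω hta, hm i a ω hta, hm' i a ω hta]
  have key : ∀ i ∈ U, ∀ ω, i ∉ ω → φ i ω + φ i (insert i ω) ≤ 1 := by
    intro i _ ω hi
    by_cases hiU : i ∈ U'
    · have e1 := hq i i ω le_rfl
      have e2 := hm i i ω le_rfl
      have e3 := hm' i i ω le_rfl
      have hpos := nrm_pos q0 q1 m0' m1' m0 m1 i ω
      have h2 := q1 i ω
      have h3 : (1 - q i ω) ≠ 0 := by linarith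
      simp only [φ, hiU, if_true, tf, rat, nrm, hi, if_false, Finset.mem_insert_self, e1, e2, e3]
      simp only [nrm] at hpos
      have hnum : (1 - m i ω * q i ω) * ((1 - m' i ω * q i ω) / (1 - q i ω)) +
          m i ω * q i ω * m' i ω =
          1 + (m' i ω - 1) * (m i ω - 1) * (q i ω / (1 - q i ω)) := by
        field_simp
        ring
      set Z := 1 + (m' i ω - 1) * (m i ω - 1) * (q i ω / (1 - q i ω)) with hZ
      apply le_of_eq
      calc (1 - m i ω * q i ω) * ((1 - m' i ω * q i ω) / (1 - q i ω) / Z) +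
            m i ω * q i ω * (m' i ω / Z)
          = ((1 - m i ω * q i ω) * ((1 - m' i ω * q i ω) / (1 - q i ω)) +
          m i ω * q i ω * m' i ω) / Z := by ring
        _ = 1 := by rw [hnum]; exact div_self hpos.ne'
    · simp only [φ, hiU, if_false, mul_one]
      exact (tf_sum hq hm i ω hi).le
  have := sum_le_one hφ U key
  refine le_trans (le_of_eq ?_) this
  refine Finset.sum_congr rfl fun ω _ => ?_
  simp only [φ]
  rw [Finset.prod_mul_distrib, ← TW]
  congr 1
  rw [← Finset.prod_filter, ← Finset.prod_div_distrib]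
  have : U.filter (fun i => i ∈ U') = U' := by
    ext i; simp only [Finset.mem_filter]
    exact ⟨fun h => h.2, fun h => ⟨hU h, h⟩⟩
  rw [this]

include q1 in
theorem TW_density (U U' : Finset ι) (hU : U' ⊆ U) (ω : Finset ι)
    (h : ∀ i ∈ U, i ∉ U' → m i ω = 1) :
    TW q (fun _ _ => 1) U ω * ∏ i ∈ U', rat q m i ω = TW q m U ω := by
  unfold TW
  rw [← Finset.prod_sdiff hU, ← Finset.prod_sdiff (f := fun i => tf q m i ω) hU, mul_assoc,
    ← Finset.prod_mul_distrib]
  congr 1
  · refine Finset.prod_congr rfl fun i hi => ?_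
    have := h i (Finset.mem_sdiff.1 hi).1 (Finset.mem_sdiff.1 hi).2
    simp [tf, this]
  · refine Finset.prod_congr rfl fun i _ => ?_
    have h2 := q1 i ω
    have h3 : (1 - q i ω) ≠ 0 := by linarith
    unfold tf rat
    split_ifs
    · ring
    · field_simp

include hq q0 q1 in
/-- probability that the item `a` is on -/
theorem TW_item (U : Finset ι) (a : ι) (ha : a ∈ U) :
    ∑ ω ∈ U.powerset, (if a ∈ ω then TW q (fun _ _ => 1) U ω else 0) =
      ∑ ω ∈ U.powerset, q a ω * TW q (fun _ _ => 1) U ω := by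
  have h1 : ∀ i ω, q i ω ≤ 1 / 2 := fun i ω => (q1 i ω).trans (by norm_num)
  have := Helper50.Frac.prob_item hq q0 h1 U a ha
  have e : ∀ ω, Helper50.Frac.W q U ∅ ω = TW q (fun _ _ => 1) U ω := by
    intro ω
    unfold Helper50.Frac.W TW
    refine Finset.prod_congr rfl fun i _ => ?_
    simp [Helper50.Frac.fac, tf]
  simpa only [e] using this

end

end Helper50.FracR
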