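import Mathlib

/-!
# Fractional chromatic number of degenerate `K_r`-free graphs: definitions of the random process

`S v` is the set of left neighbours of the vertex `v` (a natural number); all elements of `S v` are
smaller than `v`.  An item is a nonempty decreasing list `c :: B`, where `B` is a clique of `S c`.
-/

open Finset

namespace Helper50.FracR

/-- The `j`-cliques inside `X`, as decreasing lists. -/
def CL (S : ℕ → Finset ℕ) : ℕ → Finset ℕ → Finset (List ℕ)
  | 0, _ => {[]}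
  | j + 1, X => X.biUnion fun c => (CL S j (S c ∩ X)).image (List.cons c)

/-- The total weight of the `j`-cliques inside `X`. -/
noncomputable def ms (S : ℕ → Finset ℕ) (q : ℕ → ℝ) : ℕ → Finset ℕ → ℝ
  | 0, _ => 1
  | j + 1, X => ∑ c ∈ X, q c * ms S q j (S c ∩ X)

/-- The parameters of the process. -/
structure Pm where
  /-- the number of levels, `r = n + 3` -/
  n : ℕ
  /-- the hitting probability -/
  p : ℝ
  /-- bound for the discounted load -/
  K1 : ℝ
  /-- bound for the density -/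
  cap : ℝ
  /-- thresholds of the clique masses -/
  eps : ℕ → ℝ
  /-- bounds of the loads -/
  Lam : ℕ → ℝ
  /-- rates -/
  kap : ℕ → ℝ
  /-- positive tilts -/
  tau : ℕ → ℝ
  /-- exponents of the bounds for the correlations -/
  Y : ℕ → ℝ
  /-- bounds for the correlations -/
  M : ℕ → ℝ

/-- All inequalities between the parameters that the proof needs; `d` is the degeneracy. -/
structure Ok (P : Pm) (d : ℕ) : Prop where
  hp : 0 < P.p
  hK1 : 1 ≤ P.K1
  hd : 8 * (P.p * d) ≤ P.K1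
  eps_pos : ∀ j, 0 < P.eps j
  eps_one : P.eps 1 ≤ 1
  kap_zero : P.kap 0 = 1
  kap_one : ∀ j, 1 ≤ P.kap j
  tau_pos : ∀ j, 0 < P.tau j
  tau_one : ∀ j, P.tau j ≤ 1
  M_mono : Monotone P.M
  M_exp : ∀ j, Real.exp (P.Y j) ≤ P.M j
  Y_zero : (2 * P.n + 2 : ℝ) ≤ P.Y 0
  Y_succ : ∀ l, 1 ≤ l → l ≤ P.n → P.K1 * P.M 0 * (P.n + 2) +
    ∑ j ∈ Finset.Ico 1 l, P.K1 * P.M j * ((P.n + 2) + 4 * P.kap j * P.Lam j ^ j) + P.n ≤ P.Y l
  Lam_le : ∀ l, 1 ≤ l → l ≤ P.n → 2 * P.K1 * P.M (l - 1) ≤ P.Lam l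
  eps_kap : ∀ j, 1 ≤ j → j < P.n → 4 * P.kap j * P.eps (j + 1) ≤ 1
  tau_sq : ∀ j, 1 ≤ j → j ≤ P.n → 2 * P.tau j ^ 2 * P.kap j * (P.K1 * P.M j) ^ j ≤ 1
  R_one : ∀ j, 1 ≤ j → j ≤ P.n → 4 * (P.n + 2 : ℝ) ≤ P.tau j * P.kap j * P.eps j
  R_two : ∀ i j, 1 ≤ i → i ≤ j → j ≤ P.n → 8 * P.Y i ≤ P.tau j * P.kap j * P.eps j * P.Lam i
  R_three : ∀ i j, 1 ≤ i → i < j → j ≤ P.n →
    8 * i * P.Lam i ^ (i - 1) * P.Y i ≤ P.tau j * P.kap j * P.eps j * P.eps i
  cap_le : 8 * Real.exp (2 * (P.K1 * P.M P.n) *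
    (1 + ∑ j ∈ Finset.Icc 1 P.n, P.kap j * (P.K1 * P.M j) ^ j)) ≤ P.cap
  small : ∀ j, j ≤ P.n → P.kap j * (P.p * P.cap) ≤ 1 / 4

variable (P : Pm) (S : ℕ → Finset ℕ)

/-- The level of a set of common neighbours. -/
noncomputable def lev (q : ℕ → ℝ) (D : Finset ℕ) : ℕ :=
  ((Finset.Icc 1 P.n).filter fun j => P.eps j < ms S q j D).sup id

open Classical in
/-- The type of `x` as a left neighbour of `v`; `D` is the set of common left neighbours and `f` the
types of the elements of `D` as left neighbours of `x`. -/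
noncomputable def thF (q : ℕ → ℝ) (D : Finset ℕ) (f : ℕ → ℕ) : ℕ :=
  if 1 ≤ lev P S q D ∧ ms S q 1 D ≤ P.Lam (lev P S q D) ∧
    P.eps (lev P S q D) / 2 ≤ ms S q (lev P S q D) (D.filter fun a => f a ≤ lev P S q D)
  then lev P S q D else 0

/-- The type of `x` as a left neighbour of `v`. -/
noncomputable def theta (q : ℕ → ℝ) (x v : ℕ) : ℕ :=
  thF P S q (S x ∩ S v) (fun a => if _h : a < x then theta q a x else 0)
termination_by x

/-- Left neighbours of `c` of type at most `j`. -/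
noncomputable def TT (q : ℕ → ℝ) (c j : ℕ) : Finset ℕ :=
  (S c).filter fun b => theta P S q b c ≤ j

/-- The product of the weights of a list. -/
noncomputable def lw (q : ℕ → ℝ) (B : List ℕ) : ℝ := (B.map q).prod

/-- The probability of an item. -/
noncomputable def iq (q : ℕ → ℝ) : List ℕ → ℝ
  | [] => 0
  | c :: B => if B ∈ CL S B.length (TT P S q c B.length) then
      P.kap B.length * q c * lw q B else 0

/-- The tilt of the item for the vertex `v`. -/
noncomputable def st (q : ℕ → ℝ) (v : ℕ) : List ℕ → ℝ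
  | [] => 0
  | c :: B => if c ∈ S v then
      (if (B = [] ∨ theta P S q c v = B.length) ∧ B ∈ CL S B.length (S c ∩ S v) then -1
        else P.tau B.length) else 0

/-- The items with top vertex `c`. -/
def Itc (c : ℕ) : Finset (List ℕ) :=
  (Finset.range (P.n + 1)).biUnion fun j => (CL S j (S c)).image (List.cons c)

/-- The items with top vertex smaller than `v`. -/
def Itm (v : ℕ) : Finset (List ℕ) := (Finset.range v).biUnion (Itc P S)

/-- The correlation of the tilts of `u` and `v`. -/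
noncomputable def ZZ (q : ℕ → ℝ) (u v : ℕ) : ℝ :=
  ∏ e ∈ Itm P S u, (1 + st P S q u e * st P S q v e * (iq P S q e / (1 - iq P S q e)))

/-- The density of the tilted law of `v`. -/
noncomputable def DD (q : ℕ → ℝ) (v : ℕ) (ω : Finset (List ℕ)) : ℝ :=
  ∏ e ∈ Itm P S v, (if e ∈ ω then 1 + st P S q v e else
    (1 - (1 + st P S q v e) * iq P S q e) / (1 - iq P S q e))

open Classical in
/-- The probability of the vertex `v`, given the probabilities `q` of the earlier vertices. -/
noncomputable def QF (v : ℕ) (q : ℕ → ℝ) (ω : Finset (List ℕ)) : ℝ :=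
  if (∑ u ∈ S v, q u / ZZ P S q u v ≤ P.K1) ∧ DD P S q v ω ≤ P.cap then P.p * DD P S q v ω else 0

/-- The probability of the vertex `v`. -/
noncomputable def QQ (v : ℕ) (ω : Finset (List ℕ)) : ℝ :=
  QF P S v (fun u => if _h : u < v then QQ u ω else 0) ω
termination_by v

end Helper50.FracR
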