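import Pool.Agent.Helper36.Frac.Det
import Pool.Agent.Helper36.Frac.NE
import Pool.Agent.Helper36.Frac.Prob
import Pool.Agent.Helper50.Frac.Graph

/-!
# From ordered graphs to degenerate `K_r`-free graphs
-/

open Finset

namespace Helper50.FracR

open Helper36.Frac

variable {κ β δ T M : ℕ → ℝ} {s : ℕ} {L : ℝ}

theorem prod_map_le {R : ℕ → ℝ} {q : ℝ} (hR : ∀ x, 0 ≤ R x ∧ R x ≤ q) (l : List ℕ) :
    0 ≤ (l.map R).prod ∧ (l.map R).prod ≤ q ^ l.length := by
  induction l with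
  | nil => simp
  | cons a l ih =>
    simp only [List.map_cons, List.prod_cons, List.length_cons]
    refine ⟨mul_nonneg (hR a).1 ih.1, ?_⟩
    rw [pow_succ, mul_comm]
    exact mul_le_mul ih.2 (hR a).2 (hR a).1 (pow_nonneg ((hR a).1.trans (hR a).2) _)

theorem rate_le {S : ℕ → Finset ℕ} {R : ℕ → ℝ} {q : ℝ} (hκ : ∀ i, 1 ≤ κ i)
    (hR : ∀ x, 0 ≤ R x ∧ R x ≤ q)
    (hq : ∀ i, 1 ≤ i → i ≤ s → κ i * q ^ i ≤ 1 / 4) (A : Finset ℕ) :
    ∀ K ∈ U S s A, rate κ R K ≤ 1 / 4 := by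
  intro K hK
  obtain ⟨c, i, l⟩ := K
  simp only [U, Finset.mem_sigma, Finset.mem_range] at hK
  obtain ⟨_, hi, hl⟩ := hK
  have hlen : l.length = i := (mem_cl.1 hl).1
  have h1 := prod_map_le hR l
  refine le_trans ?_ (hq (i + 1) (by omega) (by omega))
  unfold rate
  simp only
  refine mul_le_mul_of_nonneg_left ?_ (by linarith [hκ (i + 1)])
  rw [pow_succ, mul_comm]
  rw [hlen] at h1
  exact mul_le_mul h1.2 (hR c).2 (hR c).1 (pow_nonneg ((hR c).1.trans (hR c).2) _)

open Classical in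
theorem exists_weights {V : Type*} [Fintype V] (G : SimpleGraph V) (d : ℕ)
    (hdeg : ∀ t : Finset V, t.Nonempty → ∃ v ∈ t, (t.filter fun w => G.Adj v w).card ≤ d)
    (hfree : G.CliqueFree (s + 2)) (hs : 1 ≤ s) {p qmax : ℝ} (hp : 0 < p) (hpd : p * d ≤ L)
    (hC : Con s L κ β δ T M) (hq0 : 0 ≤ qmax) (hqb : 4 * p * Real.exp (Bd s κ M) ≤ qmax)
    (hq : ∀ i, 1 ≤ i → i ≤ s → κ i * qmax ^ i ≤ 1 / 4) :
    ∃ x : Finset V → ℝ, (∀ I, 0 ≤ x I) ∧ (∀ I : Finset V, ¬ G.IsIndepSet I → x I = 0) ∧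
      (∀ v, 1 ≤ ∑ I with v ∈ I, x I) ∧ ∑ I, x I = 2 / p := by
  obtain ⟨f, hf1, hf2, hf3⟩ := Helper50.Frac.ordering G d hdeg Finset.univ
  set n := (Finset.univ : Finset V).card with hn
  have inj : ∀ v w, f v = f w → v = w := fun v w h => hf2 v (mem_univ _) w (mem_univ _) h
  let S : ℕ → Finset ℕ := fun m => (range m).filter fun k => ∃ v u, f v = m ∧ f u = k ∧ G.Adj v u
  have hSmem : ∀ v u, f u ∈ S (f v) ↔ f u < f v ∧ G.Adj v u := by
    intro v u
    simp only [S, Finset.mem_filter, Finset.mem_range]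
    constructor
    · rintro ⟨h, v', u', h1, h2, h3⟩
      rw [inj _ _ h1, inj _ _ h2] at h3
      exact ⟨h, h3⟩
    · rintro ⟨h, h3⟩
      exact ⟨h, v, u, rfl, rfl, h3⟩
  have hSex : ∀ m, ∀ k ∈ S m, ∃ v u, f v = m ∧ f u = k ∧ G.Adj v u := by
    intro m k hk
    exact (Finset.mem_filter.1 hk).2
  have hS : ∀ v, ∀ u ∈ S v, u < v := by
    intro v u hu
    exact Finset.mem_range.1 (Finset.mem_filter.1 hu).1
  have hcard' : ∀ v, (S (f v)).card ≤ d := by
    intro v
    refine le_trans ?_ (hf3 v (mem_univ _))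
    refine Finset.card_le_card_of_surjOn f ?_
    intro k hk
    have hk' : k ∈ S (f v) := hk
    obtain ⟨v', u, h1, rfl, h3⟩ := hSex _ _ hk'
    have := (hSmem v u).1 hk'
    refine ⟨u, ?_, rfl⟩
    simp [this.1, this.2]
  have hcard : ∀ v < n, (S v).card ≤ d := by
    intro v _
    rcases (S v).eq_empty_or_nonempty with h | ⟨k, hk⟩
    · simp [h]
    · obtain ⟨v', u, rfl, _, _⟩ := hSex _ _ hk
      exact hcard' v'
  -- the preimage
  have hclq : ∀ l : List ℕ, l.Pairwise (fun x y => y ∈ S x) → (∀ x ∈ l, ∃ a, f a = x) →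
      ∃ t : Finset V, G.IsNClique l.length t ∧ ∀ a ∈ t, f a ∈ l := by
    intro l
    induction l with
    | nil => intro _ _; exact ⟨∅, by simp, by simp⟩
    | cons c l ih =>
      intro hl hex
      rw [List.pairwise_cons] at hl
      obtain ⟨t, ht1, ht2⟩ := ih hl.2 fun x hx => hex x (List.mem_cons_of_mem _ hx)
      obtain ⟨a, rfl⟩ := hex c List.mem_cons_self
      refine ⟨insert a t, ht1.insert ?_, ?_⟩
      · intro b hb
        exact ((hSmem a b).1 (hl.1 _ (ht2 b hb))).2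
      · intro b hb
        rw [Finset.mem_insert] at hb
        rcases hb with rfl | hb
        · exact List.mem_cons_self
        · exact List.mem_cons_of_mem _ (ht2 b hb)
  have hempty : ∀ v, ∀ u ∈ S v, cl S s (S u ∩ S v) = ∅ := by
    intro v u hu
    rw [Finset.eq_empty_iff_forall_notMem]
    intro l hl
    obtain ⟨h1, h2, h3⟩ := mem_cl.1 hl
    have h4 : (v :: u :: l).Pairwise (fun x y => y ∈ S x) := by
      rw [List.pairwise_cons, List.pairwise_cons]
      refine ⟨?_, fun x hx => (Finset.mem_inter.1 (h2 x hx)).1, h3⟩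
      intro x hx
      rw [List.mem_cons] at hx
      rcases hx with rfl | hx
      · exact hu
      · exact (Finset.mem_inter.1 (h2 x hx)).2
    obtain ⟨t, ht, _⟩ := hclq _ h4 (by
      intro x hx
      rw [List.mem_cons, List.mem_cons] at hx
      rcases hx with rfl | rfl | hx
      · obtain ⟨a, b, ha, _, _⟩ := hSex _ _ hu
        exact ⟨a, ha⟩
      · obtain ⟨a, b, _, hb, _⟩ := hSex _ _ hu
        exact ⟨b, hb⟩
      · obtain ⟨a, b, _, hb, _⟩ := hSex _ _ (Finset.mem_inter.1 (h2 x hx)).2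
        exact ⟨b, hb⟩)
    refine hfree t ?_
    simpa [h1] using ht
  have hfreeP : ∀ (R : ℕ → ℝ) (v : ℕ), ∀ u ∈ S v, P S R s (S u ∩ S v) = 0 :=
    fun R v u hu => P_eq_zero (hempty v u hu)
  have hNE : ∀ (R : ℕ → ℝ) (v : ℕ), (∀ x, 0 ≤ R x ∧ R x ≤ qmax) → HypN S κ β s L R v →
      HypE S κ β s L R v := by
    intro R v hR hv
    refine le_trans (Finset.sum_le_sum fun u hu => ?_) hv
    have h1 := N_pos hC.κge hC.β0 hC.β1 (fun x => (hR x).1) u v
      (rate_le hC.κge hR hq (S u ∩ S v))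
    have h2 := N_le hS hC.κ1 hC.κge hC.β0 hC.β1 (fun x => (hR x).1) hs u v
      (rate_le hC.κge hR hq (S u ∩ S v))
    rw [div_eq_mul_inv, Real.exp_neg]
    exact mul_le_mul_of_nonneg_left (inv_anti₀ h1 h2) (hR u).1
  have hb : ∀ (R : ℕ → ℝ) (v : ℕ), v < n → (∀ x, 0 ≤ R x ∧ R x ≤ qmax) →
      (∀ x < v, 0 < R x → HypN S κ β s L R x) → HypN S κ β s L R v →
      4 * p * N S κ β s R v v ≤ qmax := by
    intro R v _ hR hx hv
    have h2 := N_le hS hC.κ1 hC.κge hC.β0 hC.β1 (fun x => (hR x).1) hs v v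
      (rate_le hC.κge hR hq (S v ∩ S v))
    have h3 := E_self_le hS (hfreeP R) (fun x => (hR x).1) hC hs v
      (fun x hxv h0 => hNE R x hR (hx x hxv h0)) (hNE R v hR hv)
    refine le_trans ?_ hqb
    refine mul_le_mul_of_nonneg_left (h2.trans (Real.exp_le_exp.2 h3)) (by positivity)
  obtain ⟨w, hw0, hw1, hw2, hw3⟩ := prob hS hs hC.κ1 hC.κge hC.β0 hC.β1 hp hC.hL hcard hpd hq0 hq hb
  set U := (range n).powerset with hU
  let T : Finset ℕ → Finset V := fun ω => Finset.univ.filter fun v => f v ∈ ω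
  have hT : ∀ ω v, v ∈ T ω ↔ f v ∈ ω := by intro ω v; simp [T]
  refine ⟨fun I => 2 / p * ∑ ω ∈ U, (if T ω = I then w ω else 0), ?_, ?_, ?_, ?_⟩
  · intro I
    refine mul_nonneg (by positivity) (Finset.sum_nonneg fun ω _ => ?_)
    split_ifs
    · exact hw0 ω
    · exact le_rfl
  · intro I hI
    rw [mul_eq_zero]
    right
    refine Finset.sum_eq_zero fun ω _ => ?_
    by_cases hTI : T ω = I
    · rw [if_pos hTI]
      subst hTI
      rw [SimpleGraph.IsIndepSet, Set.Pairwise] at hI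
      push Not at hI
      obtain ⟨a, ha, b, hb, hab, hadj⟩ := hI
      have ha' := (hT ω a).1 ha
      have hb' := (hT ω b).1 hb
      have hfab : f a ≠ f b := fun h => hab (inj _ _ h)
      by_contra hne
      rcases lt_or_gt_of_ne hfab with h | h
      · exact hw1 ω hne (f b) hb' (f a) ha' (hf1 b (mem_univ _)) ((hSmem b a).2 ⟨h, hadj.symm⟩)
      · exact hw1 ω hne (f a) ha' (f b) hb' (hf1 a (mem_univ _)) ((hSmem a b).2 ⟨h, hadj⟩)
    · rw [if_neg hTI]
  · intro v
    have e1 : ∑ I with v ∈ I, 2 / p * ∑ ω ∈ U, (if T ω = I then w ω else 0) =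
        2 / p * ∑ ω ∈ U, (if f v ∈ ω then w ω else 0) := by
      rw [← Finset.mul_sum, Finset.sum_comm]
      congr 1
      refine Finset.sum_congr rfl fun ω _ => ?_
      rw [Finset.sum_filter]
      have : ∀ I : Finset V, (if v ∈ I then (if T ω = I then w ω else 0) else 0) =
          if T ω = I then (if v ∈ I then w ω else 0) else 0 := by
        intro I; split_ifs <;> rfl
      rw [Finset.sum_congr rfl fun I _ => this I, Finset.sum_ite_eq]
      simp only [Finset.mem_univ, if_true, hT]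
    rw [e1]
    have h2 := hw3 (f v) (hf1 v (mem_univ _))
    calc (1 : ℝ) = 2 / p * (p / 2) := by field_simp
      _ ≤ _ := mul_le_mul_of_nonneg_left h2 (by positivity)
  · rw [← Finset.mul_sum, Finset.sum_comm]
    have : ∀ ω ∈ U, ∑ I : Finset V, (if T ω = I then w ω else 0) = w ω := by
      intro ω _
      rw [Finset.sum_ite_eq]
      simp
    rw [Finset.sum_congr rfl this, hw2, mul_one]

end Helper50.FracR
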